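import Pool.Agent.H97Z.JE.Defs

set_option autoImplicit false

open Finset Polynomial
open scoped BigOperators ComplexConjugate

namespace Pool.Agent.H241Z.JE

open Pool.Agent.H97Z.JE

lemma ee_add (x y : ℝ) : ee (x + y) = ee x * ee y := by
  unfold ee; rw [← Complex.exp_add]; congr 1; push_cast; ring

lemma norm_ee (x : ℝ) : ‖ee x‖ = 1 := by
  unfold ee
  have : (2 * (Real.pi : ℂ) * x * Complex.I) = ((2 * Real.pi * x : ℝ) : ℂ) * Complex.I := by
    push_cast; ring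
  rw [this, Complex.norm_exp_ofReal_mul_I]

lemma conj_ee (x : ℝ) : conj (ee x) = ee (-x) := by
  unfold ee
  rw [← Complex.exp_conj]; congr 1
  simp [Complex.conj_ofReal, map_ofNat]

lemma shift_sum (u : ℕ → ℂ) (hu : ∀ s, ‖u s‖ ≤ 1) (S a : ℕ) :
    ‖∑ s ∈ range S, u (s + a) - ∑ s ∈ range S, u s‖ ≤ 2 * a := by
  have h1 : ∑ s ∈ range (a + S), u s = ∑ s ∈ range a, u s + ∑ s ∈ range S, u (s + a) := by
    rw [sum_range_add]; simp [add_comm]
  have h2 : ∑ s ∈ range (a + S), u s = ∑ s ∈ range S, u s + ∑ s ∈ range a, u (S + s) := by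
    rw [add_comm a S, sum_range_add]
  have h3 : ∑ s ∈ range S, u (s + a) - ∑ s ∈ range S, u s =
      ∑ s ∈ range a, u (S + s) - ∑ s ∈ range a, u s := by
    linear_combination h2 - h1
  have h4 : ∀ v : ℕ → ℂ, (∀ s, ‖v s‖ ≤ 1) → ‖∑ s ∈ range a, v s‖ ≤ a := by
    intro v hv
    calc ‖∑ s ∈ range a, v s‖ ≤ ∑ s ∈ range a, ‖v s‖ := norm_sum_le _ _
      _ ≤ ∑ s ∈ range a, (1 : ℝ) := sum_le_sum fun s _ => hv s
      _ = a := by simp
  rw [h3]
  calc _ ≤ ‖∑ s ∈ range a, u (S + s)‖ + ‖∑ s ∈ range a, u s‖ := norm_sub_le _ _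
    _ ≤ a + a := add_le_add (h4 _ fun s => hu _) (h4 _ hu)
    _ = 2 * a := by ring

lemma vdc_sum (δ : ℝ) (hδ : 0 < δ) (H S : ℕ) (hH : 16 ≤ δ ^ 2 * H) (hS : 4 * H ≤ δ * S)
    (u : ℕ → ℂ) (hu : ∀ s, ‖u s‖ ≤ 1) (h : δ * S ≤ ‖∑ s ∈ range S, u s‖) :
    ∃ a ∈ range H, ∃ a' ∈ range H, a' < a ∧
      δ ^ 2 / 8 * S ≤ ‖∑ s ∈ range S, u (s + a) * conj (u (s + a'))‖ := by
  by_contra hcon
  push Not at hcon
  have hHpos : (0 : ℝ) < H := by
    rcases Nat.eq_zero_or_pos H with rfl | h0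
    · simp at hH; linarith
    · exact_mod_cast h0
  have hSpos : (0 : ℝ) < S := by
    by_contra h0
    have : (S : ℝ) = 0 := le_antisymm (not_lt.mp h0) (Nat.cast_nonneg _)
    rw [this] at hS; linarith
  set c : ℕ → ℕ → ℂ := fun a a' => ∑ s ∈ range S, u (s + a) * conj (u (s + a')) with hc
  have hsym : ∀ a a', ‖c a a'‖ = ‖c a' a‖ := by
    intro a a'
    have : c a a' = conj (c a' a) := by
      simp only [hc, map_sum, map_mul, Complex.conj_conj]
      exact sum_congr rfl fun s _ => mul_comm _ _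
    rw [this, Complex.norm_conj]
  have hb : ∀ a ∈ range H, ∀ a' ∈ range H,
      ‖c a a'‖ ≤ (if a' = a then (S : ℝ) else 0) + δ ^ 2 / 8 * S := by
    intro a ha a' ha'
    split_ifs with he
    · have : ‖c a a'‖ ≤ S := by
        calc ‖c a a'‖ ≤ ∑ s ∈ range S, ‖u (s + a) * conj (u (s + a'))‖ := norm_sum_le _ _
          _ ≤ ∑ s ∈ range S, (1 : ℝ) := by
            refine sum_le_sum fun s _ => ?_
            rw [norm_mul, Complex.norm_conj]
            exact mul_le_one₀ (hu _) (norm_nonneg _) (hu _)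
          _ = S := by simp
      have : 0 ≤ δ ^ 2 / 8 * S := by positivity
      linarith
    · rcases lt_or_gt_of_ne he with hlt | hlt
      · have := hcon a ha a' ha' hlt
        simpa using this.le
      · have := hcon a' ha' a ha hlt
        rw [hsym]
        simpa using this.le
  set v : ℕ → ℂ := fun s => ∑ a ∈ range H, u (s + a) with hv
  have h1 : (H : ℝ) * (δ * S / 2) ≤ ‖∑ s ∈ range S, v s‖ := by
    have e1 : ∑ s ∈ range S, v s = ∑ a ∈ range H, ∑ s ∈ range S, u (s + a) := sum_comm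
    have e2 : ∑ s ∈ range S, v s = (H : ℂ) * ∑ s ∈ range S, u s +
        ∑ a ∈ range H, (∑ s ∈ range S, u (s + a) - ∑ s ∈ range S, u s) := by
      rw [e1, sum_sub_distrib]; simp
    have e3 : ‖∑ a ∈ range H, (∑ s ∈ range S, u (s + a) - ∑ s ∈ range S, u s)‖ ≤
        H * (2 * H) := by
      calc _ ≤ ∑ a ∈ range H, ‖∑ s ∈ range S, u (s + a) - ∑ s ∈ range S, u s‖ := norm_sum_le _ _
        _ ≤ ∑ a ∈ range H, (2 * H : ℝ) := by
          refine sum_le_sum fun a ha => (shift_sum u hu S a).trans ?_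
          have : (a : ℝ) ≤ H := by exact_mod_cast (mem_range.mp ha).le
          linarith
        _ = H * (2 * H) := by simp
    have e4 : ‖(H : ℂ) * ∑ s ∈ range S, u s‖ ≤ ‖∑ s ∈ range S, v s‖ + H * (2 * H) := by
      have : (H : ℂ) * ∑ s ∈ range S, u s = ∑ s ∈ range S, v s -
          ∑ a ∈ range H, (∑ s ∈ range S, u (s + a) - ∑ s ∈ range S, u s) := by
        rw [e2]; ring
      rw [this]
      exact (norm_sub_le _ _).trans (by linarith)
    rw [norm_mul, Complex.norm_natCast] at e4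
    nlinarith [mul_le_mul_of_nonneg_left h hHpos.le, mul_le_mul_of_nonneg_left hS hHpos.le]
  have h2 : ‖∑ s ∈ range S, v s‖ ^ 2 ≤ S * ∑ s ∈ range S, ‖v s‖ ^ 2 := by
    calc _ ≤ (∑ s ∈ range S, ‖v s‖) ^ 2 := by
          gcongr; exact norm_sum_le _ _
      _ ≤ S * ∑ s ∈ range S, ‖v s‖ ^ 2 := by
          simpa using sq_sum_le_card_mul_sum_sq (s := range S) (f := fun s => ‖v s‖)
  have h3 : ∑ s ∈ range S, ‖v s‖ ^ 2 ≤ H * S + H * (H * (δ ^ 2 / 8 * S)) := by
    have e1 : ((∑ s ∈ range S, ‖v s‖ ^ 2 : ℝ) : ℂ) = ∑ a ∈ range H, ∑ a' ∈ range H, c a a' := by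
      push_cast
      have : ∀ s, ((‖v s‖ : ℝ) : ℂ) ^ 2 =
          ∑ a ∈ range H, ∑ a' ∈ range H, u (s + a) * conj (u (s + a')) := by
        intro s
        rw [← Complex.mul_conj', hv]
        simp only [map_sum]
        rw [sum_mul_sum]
      simp_rw [this, hc]
      rw [sum_comm]
      exact sum_congr rfl fun a _ => sum_comm
    have e2 : ∑ s ∈ range S, ‖v s‖ ^ 2 ≤ ‖∑ a ∈ range H, ∑ a' ∈ range H, c a a'‖ := by
      rw [← e1, Complex.norm_real]; exact le_abs_self _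
    refine e2.trans ?_
    calc _ ≤ ∑ a ∈ range H, ‖∑ a' ∈ range H, c a a'‖ := norm_sum_le _ _
      _ ≤ ∑ a ∈ range H, ((S : ℝ) + H * (δ ^ 2 / 8 * S)) := by
        refine sum_le_sum fun a ha => (norm_sum_le _ _).trans ?_
        refine (sum_le_sum fun a' ha' => hb a ha a' ha').trans ?_
        rw [sum_add_distrib, sum_ite_eq' , if_pos ha]
        simp
      _ = H * S + H * (H * (δ ^ 2 / 8 * S)) := by simp
  have h4 : ((H : ℝ) * (δ * S / 2)) ^ 2 ≤ S * (H * S + H * (H * (δ ^ 2 / 8 * S))) := by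
    calc _ ≤ ‖∑ s ∈ range S, v s‖ ^ 2 := by gcongr
      _ ≤ _ := h2
      _ ≤ _ := by gcongr
  have h5 : (H : ℝ) * S ^ 2 * (δ ^ 2 * H) ≤ H * S ^ 2 * 8 := by nlinarith
  have h6 : 0 < (H : ℝ) * S ^ 2 := by positivity
  have := le_of_mul_le_mul_left h5 h6
  linarith

lemma expect_range (S : ℕ) (u : ℕ → ℂ) :
    ‖𝔼 s ∈ range S, u s‖ = ‖∑ s ∈ range S, u s‖ / S := by
  rw [Finset.expect_eq_sum_div_card, norm_div, card_range, Complex.norm_natCast]

lemma vdc (δ : ℝ) (hδ : 0 < δ) : ∃ H S0 : ℕ, ∀ S, S0 ≤ S → ∀ u : ℕ → ℂ, (∀ s, ‖u s‖ ≤ 1) →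
    δ ≤ ‖𝔼 s ∈ range S, u s‖ → ∃ a ∈ range H, ∃ a' ∈ range H, a' < a ∧
      δ ^ 2 / 8 ≤ ‖𝔼 s ∈ range S, u (s + a) * conj (u (s + a'))‖ := by
  obtain ⟨H, hH⟩ := exists_nat_ge (16 / δ ^ 2)
  obtain ⟨S0, hS0⟩ := exists_nat_ge (4 * H / δ)
  refine ⟨H, S0 + 1, fun S hS u hu h => ?_⟩
  have hSpos : (0 : ℝ) < S := by exact_mod_cast (by omega : 0 < S)
  have hS' : (S0 : ℝ) ≤ S := by exact_mod_cast (by omega : S0 ≤ S)
  rw [expect_range, le_div_iff₀ hSpos] at h
  obtain ⟨a, ha, a', ha', hlt, hh⟩ := vdc_sum δ hδ H S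
    (by rw [div_le_iff₀ (by positivity)] at hH; linarith)
    (by rw [div_le_iff₀ hδ] at hS0; nlinarith) u hu h
  exact ⟨a, ha, a', ha', hlt, by rw [expect_range, le_div_iff₀ hSpos]; exact hh⟩

lemma taylor_top (P : ℝ[X]) (n : ℕ) (hP : P.natDegree ≤ n + 1) (r : ℝ) :
    (taylor r P).coeff (n + 1) = P.coeff (n + 1) ∧
      (taylor r P).coeff n = P.coeff n + (n + 1) * r * P.coeff (n + 1) := by
  constructor
  · rw [taylor_coeff, eval_eq_sum_range' (n := 1)
      (lt_of_le_of_lt (natDegree_hasseDeriv_le _ _) (by omega))]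
    simp [hasseDeriv_coeff]
  · rw [taylor_coeff, eval_eq_sum_range' (n := 2)
      (lt_of_le_of_lt (natDegree_hasseDeriv_le _ _) (by omega))]
    simp [sum_range_succ, hasseDeriv_coeff, add_comm 1 n]
    ring

theorem thm_weyl : S_weyl := by
  classical
  intro e
  induction e with
  | zero =>
    intro δ hδ
    refine ⟨{(1, id)}, ?_, δ, hδ, 0, fun S _ g _ P hP h => ⟨(1, id), mem_singleton_self _, ?_⟩⟩
    · intro τ hτ
      rw [mem_singleton] at hτ
      subst hτ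
      exact ⟨le_rfl, rfl, fun g hg => hg⟩
    · have : ∀ s : ℕ, g s * ee (P.eval (s : ℝ)) =
          ee (P.coeff 0) * (g s * ee (((1 : ℕ) : ℝ) * P.coeff (0 + 1) * s)) := by
        intro s
        rw [eval_eq_sum_range' (n := 2) (by omega)]
        simp only [sum_range_succ, range_zero, sum_empty, pow_zero, mul_one, zero_add, pow_one,
          Nat.cast_one, one_mul, ee_add]
        ring
      simp_rw [this] at h
      rw [← Finset.mul_expect, norm_mul, norm_ee, one_mul] at h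
      exact h
  | succ e ih =>
    intro δ hδ
    obtain ⟨H, S1, hv⟩ := vdc δ hδ
    obtain ⟨𝒯, hT, δ', hδ', S0, hmain⟩ := ih (δ ^ 2 / 8) (by positivity)
    let F : (ℕ × ℕ) × (ℕ × ((ℕ → ℂ) → ℕ → ℂ)) → ℕ × ((ℕ → ℂ) → ℕ → ℂ) := fun p =>
      (p.2.1 * ((e + 2) * (p.1.1 - p.1.2)),
        fun g => p.2.2 fun s => g (s + p.1.1) * conj (g (s + p.1.2)))
    refine ⟨(((range H ×ˢ range H).filter fun p => p.2 < p.1) ×ˢ 𝒯).image F, ?_, δ', hδ',
      max S0 S1, fun S hS g hg P hP h => ?_⟩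
    · intro τ hτ
      obtain ⟨⟨⟨a, a'⟩, σ⟩, hp, rfl⟩ := mem_image.mp hτ
      rw [mem_product, mem_filter] at hp
      obtain ⟨⟨-, hlt⟩, hσ⟩ := hp
      obtain ⟨h1, h2, h3⟩ := hT σ hσ
      refine ⟨?_, ?_, fun g hg => h3 _ fun s => ?_⟩
      · exact Nat.mul_pos h1 (Nat.mul_pos (by omega) (by simp only at hlt ⊢; omega))
      · have : (fun s => (1 : ℕ → ℂ) (s + a) * conj ((1 : ℕ → ℂ) (s + a'))) = 1 := by
          funext s; simp
        simp only [F]
        rw [this, h2]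
      · rw [norm_mul, Complex.norm_conj]
        exact mul_le_one₀ (hg _) (norm_nonneg _) (hg _)
    · obtain ⟨a, ha, a', ha', hlt, hh⟩ := hv S (le_of_max_le_right hS)
        (fun s => g s * ee (P.eval (s : ℝ)))
        (fun s => by rw [norm_mul, norm_ee, mul_one]; exact hg s) h
      set Q : ℝ[X] := taylor (a : ℝ) P - taylor (a' : ℝ) P with hQ
      obtain ⟨t1, t2⟩ := taylor_top P (e + 1) hP a
      obtain ⟨t3, t4⟩ := taylor_top P (e + 1) hP a'
      have hQd : Q.natDegree ≤ e + 1 := by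
        rw [natDegree_le_iff_coeff_eq_zero]
        intro N hN
        rcases (show N = e + 1 + 1 ∨ e + 1 + 1 < N by omega) with rfl | hN'
        · rw [hQ, coeff_sub, t1, t3, sub_self]
        · rw [hQ, coeff_sub, coeff_eq_zero_of_natDegree_lt (by rw [natDegree_taylor]; omega),
            coeff_eq_zero_of_natDegree_lt (by rw [natDegree_taylor]; omega), sub_self]
      have hrew : ∀ s : ℕ, g (s + a) * ee (P.eval ((s + a : ℕ) : ℝ)) *
          conj (g (s + a') * ee (P.eval ((s + a' : ℕ) : ℝ))) =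
          (g (s + a) * conj (g (s + a'))) * ee (Q.eval (s : ℝ)) := by
        intro s
        rw [hQ, eval_sub, taylor_eval, taylor_eval, sub_eq_add_neg, ee_add, map_mul, conj_ee]
        push_cast
        ring
      simp_rw [hrew] at hh
      obtain ⟨σ, hσ, hfin⟩ := hmain S (le_of_max_le_left hS) _
        (fun s => by
          rw [norm_mul, Complex.norm_conj]
          exact mul_le_one₀ (hg _) (norm_nonneg _) (hg _)) Q hQd hh
      refine ⟨F ((a, a'), σ), mem_image_of_mem F ?_, ?_⟩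
      · simp only [mem_product, mem_filter]
        exact ⟨⟨⟨ha, ha'⟩, hlt⟩, hσ⟩
      · have : ((σ.1 * ((e + 2) * (a - a')) : ℕ) : ℝ) * P.coeff (e + 1 + 1) =
            σ.1 * Q.coeff (e + 1) := by
          rw [hQ, coeff_sub, t2, t4]
          push_cast [Nat.cast_sub hlt.le]
          ring
        simp only [F]
        rw [this]
        exact hfin

end Pool.Agent.H241Z.JE
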